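import Pool.Agent.N869.GK.L.Stm

set_option autoImplicit false

/-! Project GK, part AUTO: relations between the Selmer equations (helper901). -/

namespace Pool.Agent.N901.GK

open Finset
open Pool.Agent.N869.GK

theorem two_zero : (2 : ZMod 2) = 0 := by decide

theorem sq_self (a : ZMod 2) : a * a = a := by
  revert a
  decide

section

variable {r : ℕ}

theorem dot_add_left (x y z : Gr r) : dot (x + y) z = dot x z + dot y z := by
  unfold dot
  rw [← Finset.sum_add_distrib]
  exact Finset.sum_congr rfl fun i _ => add_mul _ _ _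

theorem dot_smul_left (a : ZMod 2) (x z : Gr r) : dot (a • x) z = a * dot x z := by
  unfold dot
  rw [Finset.mul_sum]
  exact Finset.sum_congr rfl fun i _ => mul_assoc _ _ _

theorem dot_add_right (x y z : Gr r) : dot x (y + z) = dot x y + dot x z := by
  unfold dot
  rw [← Finset.sum_add_distrib]
  exact Finset.sum_congr rfl fun i _ => mul_add _ _ _

theorem dot_zero_right (x : Gr r) : dot x 0 = 0 := by
  unfold dot
  simp

theorem dot_smul_right (a : ZMod 2) (x z : Gr r) : dot x (a • z) = a * dot x z := by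
  unfold dot
  rw [Finset.mul_sum]
  refine Finset.sum_congr rfl fun i _ => ?_
  show x i * (a * z i) = a * (x i * z i)
  ring

theorem dot_sum_right {R : Type} (T : Finset R) (g : Gr r) (w : R → ZMod 2) (lab : R → Gr r) :
    dot g (∑ i ∈ T, w i • lab i) = ∑ i ∈ T, w i * dot g (lab i) := by
  classical
  induction T using Finset.induction_on with
  | empty => simp [dot_zero_right]
  | insert a T ha ih => rw [Finset.sum_insert ha, Finset.sum_insert ha, dot_add_right, dot_smul_right, ih]

/-- sums over the pairs -/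
theorem sym_sum {R : Type} (T : Finset R) (F : R → R → ZMod 2)
    (h : ∀ i ∈ T, ∀ j ∈ T, i ≠ j → F i j + F j i = 0) :
    ∑ i ∈ T, ∑ j ∈ T, F i j = ∑ i ∈ T, F i i := by
  classical
  induction T using Finset.induction_on with
  | empty => simp
  | insert a T ha ih =>
    have ih' := ih fun i hi j hj => h i (Finset.mem_insert_of_mem hi) j (Finset.mem_insert_of_mem hj)
    have h1 : ∑ i ∈ T, ∑ j ∈ insert a T, F i j = ∑ i ∈ T, F i a + ∑ i ∈ T, ∑ j ∈ T, F i j := by
      rw [← Finset.sum_add_distrib]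
      exact Finset.sum_congr rfl fun i _ => Finset.sum_insert ha
    have h2 : ∑ i ∈ T, F a i + ∑ i ∈ T, F i a = 0 := by
      rw [← Finset.sum_add_distrib]
      refine Finset.sum_eq_zero fun i hi => ?_
      exact h a (Finset.mem_insert_self _ _) i (Finset.mem_insert_of_mem hi) fun h => ha (h ▸ hi)
    rw [Finset.sum_insert ha, Finset.sum_insert ha, Finset.sum_insert ha, h1, ih']
    linear_combination h2

variable {R : Type} (D : Par r) (lab : R → Gr r) (N : R → R → ZMod 2) (T : Finset R)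

/-- the quadratic relation -/
theorem quad (hN : ∀ i ∈ T, ∀ j ∈ T, i ≠ j → N i j + N j i = dot D.em (lab i) * dot D.em (lab j))
    (s : Fin 2 → Gr r) (v : R → V) :
    ∑ i ∈ T, om (v i) (row D lab N T s v i) =
      dot (s 1) ((Xl lab T s v).2 0) + dot (s 0) ((Xl lab T s v).2 1) +
      dot D.em ((Xl lab T s v).2 0) * dot D.em ((Xl lab T s v).2 1) +
      dot D.bb ((Xl lab T s v).2 0) + dot D.aa ((Xl lab T s v).2 1) := by
  have hp : ∀ (g : Gr r) (c : Fin 2), dot g ((Xl lab T s v).2 c) = ∑ i ∈ T, v i c * dot g (lab i) :=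
    fun g c => dot_sum_right T g (fun i => v i c) lab
  have h1 : ∑ i ∈ T, ∑ j ∈ T, (N i j * om (v i) (v j) +
      (v i 0 * dot D.em (lab i)) * (v j 1 * dot D.em (lab j))) =
      ∑ i ∈ T, dot D.em (lab i) * v i 0 * v i 1 := by
    rw [sym_sum]
    · refine Finset.sum_congr rfl fun i _ => ?_
      unfold om
      linear_combination (N i i * v i 0 * v i 1) * two_zero + v i 0 * v i 1 * sq_self (dot D.em (lab i))
    · intro i hi j hj hij
      have h := hN i hi j hj hij
      unfold om
      linear_combination (v i 0 * v j 1 + v i 1 * v j 0) * h +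
        (dot D.em (lab i) * dot D.em (lab j) * (v i 0 * v j 1 + v i 1 * v j 0)) * two_zero
  have h2 : ∑ i ∈ T, ∑ j ∈ T, N i j * om (v i) (v j) =
      (∑ i ∈ T, v i 0 * dot D.em (lab i)) * (∑ j ∈ T, v j 1 * dot D.em (lab j)) +
      ∑ i ∈ T, dot D.em (lab i) * v i 0 * v i 1 := by
    have h3 : (∑ i ∈ T, v i 0 * dot D.em (lab i)) * (∑ j ∈ T, v j 1 * dot D.em (lab j)) =
        ∑ i ∈ T, ∑ j ∈ T, (v i 0 * dot D.em (lab i)) * (v j 1 * dot D.em (lab j)) :=
      Finset.sum_mul_sum _ _ _ _
    simp only [Finset.sum_add_distrib] at h1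
    rw [h3]
    linear_combination h1 - (∑ i ∈ T, ∑ j ∈ T, (v i 0 * dot D.em (lab i)) * (v j 1 * dot D.em (lab j))) * two_zero
  have h4 : ∀ i ∈ T, om (v i) (row D lab N T s v i) =
      (v i 0 * (dot (s 1) (lab i) + dot D.bb (lab i) * v i 0 + dot D.ll (lab i) * v i 1) +
        v i 1 * (dot (s 0) (lab i) + dot (D.ll + D.em) (lab i) * v i 0 + dot D.aa (lab i) * v i 1)) +
      ∑ j ∈ T, N i j * om (v i) (v j) := by
    intro i _
    have h5 : ∑ j ∈ T, N i j * om (v i) (v j) =
        v i 0 * (∑ j ∈ T, N i j * (v i 1 + v j 1)) + v i 1 * (∑ j ∈ T, N i j * (v i 0 + v j 0)) := by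
      rw [Finset.mul_sum, Finset.mul_sum, ← Finset.sum_add_distrib]
      refine Finset.sum_congr rfl fun j _ => ?_
      unfold om
      linear_combination -(N i j * v i 0 * v i 1) * two_zero
    rw [h5]
    have e0 : Dm D (lab i) (v i) 0 = dot (D.ll + D.em) (lab i) * v i 0 + dot D.aa (lab i) * v i 1 := rfl
    have e1 : Dm D (lab i) (v i) 1 = dot D.bb (lab i) * v i 0 + dot D.ll (lab i) * v i 1 := rfl
    unfold om row
    rw [e0, e1]
    ring
  rw [Finset.sum_congr rfl h4, Finset.sum_add_distrib, h2, hp, hp, hp, hp, hp, hp]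
  have h6 : ∑ i ∈ T, (v i 0 * (dot (s 1) (lab i) + dot D.bb (lab i) * v i 0 + dot D.ll (lab i) * v i 1) +
        v i 1 * (dot (s 0) (lab i) + dot (D.ll + D.em) (lab i) * v i 0 + dot D.aa (lab i) * v i 1)) +
      ∑ i ∈ T, dot D.em (lab i) * v i 0 * v i 1 =
      ∑ i ∈ T, v i 0 * dot (s 1) (lab i) + ∑ i ∈ T, v i 1 * dot (s 0) (lab i) +
      ∑ i ∈ T, v i 0 * dot D.bb (lab i) + ∑ i ∈ T, v i 1 * dot D.aa (lab i) := by
    rw [← Finset.sum_add_distrib, ← Finset.sum_add_distrib, ← Finset.sum_add_distrib, ← Finset.sum_add_distrib]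
    refine Finset.sum_congr rfl fun i _ => ?_
    rw [dot_add_left]
    linear_combination dot D.bb (lab i) * sq_self (v i 0) + dot D.aa (lab i) * sq_self (v i 1) +
      (dot D.ll (lab i) * v i 0 * v i 1 + dot D.em (lab i) * v i 0 * v i 1) * two_zero
  linear_combination h6

theorem om_add_left (v v' w : V) : om (v + v') w = om v w + om v' w := by
  unfold om
  simp only [Pi.add_apply]
  ring

theorem om_add_right (v w w' : V) : om v (w + w') = om v w + om v w' := by
  unfold om
  simp only [Pi.add_apply]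
  ring

theorem row_add (s s' : Fin 2 → Gr r) (v v' : R → V) (i : R) :
    row D lab N T (s + s') (v + v') i = row D lab N T s v i + row D lab N T s' v' i := by
  have hD : ∀ c, Dm D (lab i) ((v + v') i) c = Dm D (lab i) (v i) c + Dm D (lab i) (v' i) c := by
    intro c
    unfold Dm
    fin_cases c
    · show dot (D.ll + D.em) (lab i) * (v i 0 + v' i 0) + dot D.aa (lab i) * (v i 1 + v' i 1) =
        (dot (D.ll + D.em) (lab i) * v i 0 + dot D.aa (lab i) * v i 1) +
        (dot (D.ll + D.em) (lab i) * v' i 0 + dot D.aa (lab i) * v' i 1)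
      ring
    · show dot D.bb (lab i) * (v i 0 + v' i 0) + dot D.ll (lab i) * (v i 1 + v' i 1) =
        (dot D.bb (lab i) * v i 0 + dot D.ll (lab i) * v i 1) +
        (dot D.bb (lab i) * v' i 0 + dot D.ll (lab i) * v' i 1)
      ring
  funext c
  show dot ((s + s') c) (lab i) + ∑ j ∈ T, N i j * ((v + v') i c + (v + v') j c) + Dm D (lab i) ((v + v') i) c =
    (dot (s c) (lab i) + ∑ j ∈ T, N i j * (v i c + v j c) + Dm D (lab i) (v i) c) +
    (dot (s' c) (lab i) + ∑ j ∈ T, N i j * (v' i c + v' j c) + Dm D (lab i) (v' i) c)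
  have h1 : ∑ j ∈ T, N i j * ((v + v') i c + (v + v') j c) =
      ∑ j ∈ T, N i j * (v i c + v j c) + ∑ j ∈ T, N i j * (v' i c + v' j c) := by
    rw [← Finset.sum_add_distrib]
    refine Finset.sum_congr rfl fun j _ => ?_
    simp only [Pi.add_apply]
    ring
  rw [h1, hD, Pi.add_apply, dot_add_left]
  ring

theorem Xl_add (s s' : Fin 2 → Gr r) (v v' : R → V) :
    Xl lab T (s + s') (v + v') = Xl lab T s v + Xl lab T s' v' := by
  unfold Xl
  refine Prod.ext rfl ?_
  funext c
  show ∑ i ∈ T, (v + v') i c • lab i = ∑ i ∈ T, v i c • lab i + ∑ i ∈ T, v' i c • lab i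
  rw [← Finset.sum_add_distrib]
  refine Finset.sum_congr rfl fun i _ => ?_
  rw [← add_smul]
  rfl

end

theorem t_AUTO : S_AUTO := by
  intro r D hD R lab N T hlab hN
  -- the quadratic relation
  have hq : ∀ (s : Fin 2 → Gr r) (v : R → V), Xl lab T s v ∈ D.W →
      ∑ i ∈ T, om (v i) (row D lab N T s v i) = 0 := by
    intro s v hX
    rw [quad D lab N T hN]
    have h1 := hD.sing _ hX
    have h2 := hD.sing _ (D.W.add_mem (D.W.add_mem hD.t1 hD.t2) hX)
    obtain ⟨p, hp⟩ : ∃ p, p = (Xl lab T s v).2 := ⟨_, rfl⟩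
    have hs : (Xl lab T s v).1 = s := rfl
    unfold qS at h1 h2
    have e0 : ((![D.aa, D.ll], 0) + (![D.ll + D.em, D.bb], 0) + Xl lab T s v : Hr r).1 0 =
        D.aa + (D.ll + D.em) + s 0 := rfl
    have e1 : ((![D.aa, D.ll], 0) + (![D.ll + D.em, D.bb], 0) + Xl lab T s v : Hr r).1 1 =
        D.ll + D.bb + s 1 := rfl
    have e2 : ((![D.aa, D.ll], 0) + (![D.ll + D.em, D.bb], 0) + Xl lab T s v : Hr r).2 = p := by
      rw [hp]
      show (0 + 0 + (Xl lab T s v).2 : Fin 2 → Gr r) = _
      rw [zero_add, zero_add]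
    rw [e0, e1, e2] at h2
    rw [hs, ← hp] at h1
    rw [← hp]
    simp only [dot_add_left] at h1 h2 ⊢
    linear_combination h2 - (dot D.ll (p 0) + dot D.ll (p 1) + dot D.em (p 1)) * two_zero
  have hb : ∀ (s s' : Fin 2 → Gr r) (v v' : R → V), Xl lab T s v ∈ D.W → Xl lab T s' v' ∈ D.W →
      ∑ i ∈ T, om (v' i) (row D lab N T s v i) = ∑ i ∈ T, om (v i) (row D lab N T s' v' i) := by
    intro s s' v v' h h'
    have h1 := hq s v h
    have h2 := hq s' v' h'
    have h3 := hq (s + s') (v + v') (by rw [Xl_add]; exact D.W.add_mem h h')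
    have h4 : ∑ i ∈ T, om ((v + v') i) (row D lab N T (s + s') (v + v') i) =
        ∑ i ∈ T, om (v i) (row D lab N T s v i) + ∑ i ∈ T, om (v i) (row D lab N T s' v' i) +
        (∑ i ∈ T, om (v' i) (row D lab N T s v i) + ∑ i ∈ T, om (v' i) (row D lab N T s' v' i)) := by
      rw [← Finset.sum_add_distrib, ← Finset.sum_add_distrib, ← Finset.sum_add_distrib]
      refine Finset.sum_congr rfl fun i _ => ?_
      rw [row_add, Pi.add_apply, om_add_left, om_add_right, om_add_right]
    rw [h4, h1, h2, zero_add, add_zero] at h3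
    linear_combination h3 - (∑ i ∈ T, om (v i) (row D lab N T s' v' i)) * two_zero
  refine ⟨fun s v hX => ⟨fun c => ?_, hq s v hX⟩, hb⟩
  -- the constant vectors
  have hc : Xl lab T ![c 0 • (D.ll + D.em) + c 1 • D.aa, c 0 • D.bb + c 1 • D.ll] (fun _ => c) ∈ D.W := by
    have e1 : Xl lab T ![c 0 • (D.ll + D.em) + c 1 • D.aa, c 0 • D.bb + c 1 • D.ll] (fun _ => c) =
        c 0 • ((![D.ll + D.em, D.bb], 0) : Hr r) + c 1 • ((![D.aa, D.ll], 0) : Hr r) := by
      refine Prod.ext ?_ ?_
      · funext k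
        fin_cases k <;> rfl
      · funext k
        show ∑ i ∈ T, c k • lab i = (c 0 • (0 : Fin 2 → Gr r) + c 1 • (0 : Fin 2 → Gr r)) k
        rw [← Finset.smul_sum, hlab, smul_zero, smul_zero, smul_zero, add_zero]
        rfl
    rw [e1]
    have hsm : ∀ (a : ZMod 2) (X : Hr r), X ∈ D.W → a • X ∈ D.W := by
      intro a X hX
      have ha : a = 0 ∨ a = 1 := by
        revert a
        decide
      rcases ha with rfl | rfl
      · rw [zero_smul]
        exact D.W.zero_mem
      · rw [one_smul]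
        exact hX
    exact D.W.add_mem (hsm _ _ hD.t2) (hsm _ _ hD.t1)
  have h1 := hb s _ v (fun _ => c) hX hc
  rw [h1]
  refine Finset.sum_eq_zero fun i _ => ?_
  have h2 : row D lab N T ![c 0 • (D.ll + D.em) + c 1 • D.aa, c 0 • D.bb + c 1 • D.ll] (fun _ => c) i = 0 := by
    have h3 : ∀ k, ∑ j ∈ T, N i j * (c k + c k) = 0 := fun k =>
      Finset.sum_eq_zero fun j _ => by linear_combination (N i j * c k) * two_zero
    funext k
    fin_cases k
    · show dot (c 0 • (D.ll + D.em) + c 1 • D.aa) (lab i) + ∑ j ∈ T, N i j * (c 0 + c 0) +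
        (dot (D.ll + D.em) (lab i) * c 0 + dot D.aa (lab i) * c 1) = 0
      rw [h3, dot_add_left, dot_smul_left, dot_smul_left]
      linear_combination (c 0 * dot (D.ll + D.em) (lab i) + c 1 * dot D.aa (lab i)) * two_zero
    · show dot (c 0 • D.bb + c 1 • D.ll) (lab i) + ∑ j ∈ T, N i j * (c 1 + c 1) +
        (dot D.bb (lab i) * c 0 + dot D.ll (lab i) * c 1) = 0
      rw [h3, dot_add_left, dot_smul_left, dot_smul_left]
      linear_combination (c 0 * dot D.bb (lab i) + c 1 * dot D.ll (lab i)) * two_zero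
  rw [h2]
  unfold om
  simp

end Pool.Agent.N901.GK
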